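import Pool.Agent.Helper26.DZDefs

/-!
# MP_8199af_an, Packet A: the kernel expression is the squared norm
-/

open Complex Metric Set Filter Topology MeasureTheory

namespace Pool.Agent.Helper49.DZ

open Pool.Agent.Helper26.DZ

theorem hasSum_kap {t : ℂ} (ht : ‖t‖ < 1) (h0 : t ≠ 0) :
    HasSum (fun k : ℕ => t ^ k / ((k : ℂ) + 1)) (kap t) := by
  have h := Complex.hasSum_taylorSeries_neg_log ht
  have h1 : HasSum (fun n : ℕ => t ^ (n + 1) / ((n + 1 : ℕ) : ℂ)) (-Complex.log (1 - t)) := by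
    have h' := (hasSum_nat_add_iff' 1).mpr h
    simpa using h'
  have h2 := h1.div_const t
  unfold kap
  have h3 : (fun k : ℕ => t ^ k / ((k : ℂ) + 1)) =
      fun k : ℕ => t ^ (k + 1) / ((k + 1 : ℕ) : ℂ) / t := by
    funext k
    have hk : ((k : ℂ) + 1) ≠ 0 := by exact_mod_cast Nat.succ_ne_zero k
    push_cast
    field_simp
    ring
  rw [h3]
  exact h2

theorem double_sum (z c : ℕ → ℂ) (s : Finset ℕ) (k : ℕ) :
    ∑ m ∈ s, ∑ n ∈ s, (c n * (starRingEnd ℂ) (c m) *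
      (((starRingEnd ℂ) (z n) * z m) ^ k / ((k : ℂ) + 1))).re =
    ‖∑ n ∈ s, c n * (starRingEnd ℂ) (z n) ^ k‖ ^ 2 / ((k : ℝ) + 1) := by
  have hk : ((k : ℂ) + 1) ≠ 0 := by exact_mod_cast Nat.succ_ne_zero k
  have h1 : ∑ m ∈ s, ∑ n ∈ s, (c n * (starRingEnd ℂ) (c m) *
      (((starRingEnd ℂ) (z n) * z m) ^ k / ((k : ℂ) + 1))) =
      (∑ n ∈ s, c n * (starRingEnd ℂ) (z n) ^ k) *
        (starRingEnd ℂ) (∑ n ∈ s, c n * (starRingEnd ℂ) (z n) ^ k) / ((k : ℂ) + 1) := by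
    rw [map_sum, Finset.sum_mul_sum, Finset.sum_comm, Finset.sum_div]
    refine Finset.sum_congr rfl fun n _ => ?_
    rw [Finset.sum_div]
    refine Finset.sum_congr rfl fun m _ => ?_
    simp only [map_mul, map_pow, Complex.conj_conj]
    ring
  have h2 : ∑ m ∈ s, ∑ n ∈ s, (c n * (starRingEnd ℂ) (c m) *
      (((starRingEnd ℂ) (z n) * z m) ^ k / ((k : ℂ) + 1))).re =
      (∑ m ∈ s, ∑ n ∈ s, (c n * (starRingEnd ℂ) (c m) *
      (((starRingEnd ℂ) (z n) * z m) ^ k / ((k : ℂ) + 1)))).re := by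
    rw [Complex.re_sum]
    refine Finset.sum_congr rfl fun m _ => ?_
    rw [Complex.re_sum]
  rw [h2, h1, Complex.mul_conj, Complex.normSq_eq_norm_sq]
  have h3 : ((‖∑ n ∈ s, c n * (starRingEnd ℂ) (z n) ^ k‖ ^ 2 : ℝ) : ℂ) / ((k : ℂ) + 1) =
      ((‖∑ n ∈ s, c n * (starRingEnd ℂ) (z n) ^ k‖ ^ 2 / ((k : ℝ) + 1) : ℝ) : ℂ) := by
    push_cast
    rfl
  rw [h3, Complex.ofReal_re]

theorem term_eq (z c : ℕ → ℂ) (s : Finset ℕ) (k : ℕ) :
    ((k : ℝ) + 1) * ‖(if k = 0 then (1 : ℂ) else 0) -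
        ∑ n ∈ s, c n * (starRingEnd ℂ) (z n) ^ k / ((k : ℂ) + 1)‖ ^ 2 =
      (if k = 0 then (1 - 2 * ∑ n ∈ s, (c n).re) else 0) +
        ∑ m ∈ s, ∑ n ∈ s, (c n * (starRingEnd ℂ) (c m) *
          (((starRingEnd ℂ) (z n) * z m) ^ k / ((k : ℂ) + 1))).re := by
  rw [double_sum, ← Finset.sum_div]
  by_cases h : k = 0
  · subst h
    simp only [if_true, pow_zero, mul_one, Nat.cast_zero, zero_add, div_one, one_mul]
    have h1 : (∑ n ∈ s, c n).re = ∑ n ∈ s, (c n).re := by rw [Complex.re_sum]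
    rw [← h1]
    rw [← Complex.normSq_eq_norm_sq, ← Complex.normSq_eq_norm_sq, Complex.normSq_sub]
    simp
    ring
  · have hk : (0 : ℝ) < (k : ℝ) + 1 := by positivity
    simp only [if_neg h, zero_sub, norm_neg, zero_add, norm_div]
    have h1 : ‖((k : ℂ) + 1)‖ = (k : ℝ) + 1 := by
      have : ((k : ℂ) + 1) = (((k : ℝ) + 1 : ℝ) : ℂ) := by push_cast; rfl
      rw [this, Complex.norm_real, Real.norm_eq_abs, abs_of_pos hk]
    rw [h1]
    field_simp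

/-- Packet A. -/
theorem stmtA : StmtA := by
  intro z hz s c hs
  have hfun : (fun k : ℕ => ((k : ℝ) + 1) *
      ‖(if k = 0 then (1 : ℂ) else 0) -
        ∑ n ∈ s, c n * (starRingEnd ℂ) (z n) ^ k / ((k : ℂ) + 1)‖ ^ 2) =
      fun k : ℕ => (if k = 0 then (1 - 2 * ∑ n ∈ s, (c n).re) else 0) +
        ∑ m ∈ s, ∑ n ∈ s, (c n * (starRingEnd ℂ) (c m) *
          (((starRingEnd ℂ) (z n) * z m) ^ k / ((k : ℂ) + 1))).re :=
    funext fun k => term_eq z c s k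
  rw [hfun]
  unfold quad
  refine HasSum.add (hasSum_ite_eq 0 _) ?_
  refine hasSum_sum fun m hm => hasSum_sum fun n hn => ?_
  have ht : ‖(starRingEnd ℂ) (z n) * z m‖ < 1 := by
    rw [norm_mul, RCLike.norm_conj]
    have h1 := hz n
    have h2 := hz m
    nlinarith [norm_nonneg (z n), norm_nonneg (z m)]
  have h0 : (starRingEnd ℂ) (z n) * z m ≠ 0 :=
    mul_ne_zero ((map_ne_zero _).mpr (hs n hn)) (hs m hm)
  exact Complex.hasSum_re ((hasSum_kap ht h0).mul_left _)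

end Pool.Agent.Helper49.DZ
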