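import Pool.Agent.Helper26.DZDefs

/-!
# MP_8199af_an, Packet K: zero sequences of the Dirichlet space satisfy the kernel criterion
-/

open Complex Metric Set Filter Topology MeasureTheory

namespace Pool.Agent.Helper49.DZ

open Pool.Agent.Helper26.DZ

/-- Cauchy-Schwarz for weighted series. -/
theorem cs_series (b d : ℕ → ℂ) (D Q : ℝ) (B : ℂ) (hD : 0 < D)
    (hb : HasSum (fun k : ℕ => ((k : ℝ) + 1) * ‖b k‖ ^ 2) D)
    (hd : HasSum (fun k : ℕ => ((k : ℝ) + 1) * ‖d k‖ ^ 2) Q)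
    (hB : HasSum (fun k : ℕ => ((k : ℂ) + 1) * (b k * (starRingEnd ℂ) (d k))) B) :
    ‖B‖ ^ 2 / D ≤ Q := by
  obtain ⟨l, hl⟩ : ∃ l : ℂ, l = (starRingEnd ℂ) B / (D : ℂ) := ⟨_, rfl⟩
  have h1 : HasSum (fun k : ℕ => ‖l‖ ^ 2 * (((k : ℝ) + 1) * ‖b k‖ ^ 2)) (‖l‖ ^ 2 * D) :=
    hb.mul_left _
  have h2 : HasSum (fun k : ℕ => (l * (((k : ℂ) + 1) * (b k * (starRingEnd ℂ) (d k)))).re)
      (l * B).re := Complex.hasSum_re (hB.mul_left l)
  have h3 := (h1.add hd).sub (h2.mul_left 2)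
  have h4 : (fun k : ℕ => ‖l‖ ^ 2 * (((k : ℝ) + 1) * ‖b k‖ ^ 2) + ((k : ℝ) + 1) * ‖d k‖ ^ 2 -
      2 * (l * (((k : ℂ) + 1) * (b k * (starRingEnd ℂ) (d k)))).re) =
      fun k : ℕ => ((k : ℝ) + 1) * ‖l * b k - d k‖ ^ 2 := by
    funext k
    have e1 : (l * (((k : ℂ) + 1) * (b k * (starRingEnd ℂ) (d k)))).re =
        ((k : ℝ) + 1) * (l * b k * (starRingEnd ℂ) (d k)).re := by
      have : l * (((k : ℂ) + 1) * (b k * (starRingEnd ℂ) (d k))) =
          (((k : ℝ) + 1 : ℝ) : ℂ) * (l * b k * (starRingEnd ℂ) (d k)) := by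
        push_cast; ring
      rw [this, Complex.re_ofReal_mul]
    rw [e1, ← Complex.normSq_eq_norm_sq (l * b k - d k), Complex.normSq_sub,
      Complex.normSq_mul, Complex.normSq_eq_norm_sq, Complex.normSq_eq_norm_sq,
      Complex.normSq_eq_norm_sq]
    ring
  rw [h4] at h3
  have h5 : 0 ≤ ‖l‖ ^ 2 * D + Q - 2 * (l * B).re :=
    h3.nonneg fun k => by positivity
  have h6 : ‖l‖ ^ 2 = ‖B‖ ^ 2 / D ^ 2 := by
    rw [hl, norm_div, RCLike.norm_conj, Complex.norm_real, Real.norm_eq_abs, div_pow, sq_abs]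
  have h7 : (l * B).re = ‖B‖ ^ 2 / D := by
    have : l * B = ((‖B‖ ^ 2 / D : ℝ) : ℂ) := by
      rw [hl]
      have : (starRingEnd ℂ) B * B = ((‖B‖ ^ 2 : ℝ) : ℂ) := by
        rw [mul_comm, Complex.mul_conj, Complex.normSq_eq_norm_sq]
      rw [div_mul_eq_mul_div, this]
      push_cast
      rfl
    rw [this, Complex.ofReal_re]
  rw [h6, h7] at h5
  have h8 : ‖B‖ ^ 2 / D ^ 2 * D = ‖B‖ ^ 2 / D := by
    field_simp
  rw [h8] at h5
  linarith

/-- Packet K. -/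
theorem stmtK (hA : StmtA) (hJ : StmtJ) : StmtK := by
  intro z hz ⟨u, hu, hint, ⟨w, hw, hw0⟩, hzero⟩
  obtain ⟨a, ha, hsum⟩ := hJ u hu hint
  -- some coefficient is nonzero
  have hex : ∃ m, a m ≠ 0 := by
    by_contra hcon
    push Not at hcon
    have := ha w hw
    simp only [hcon, zero_mul] at this
    exact hw0 (this.unique hasSum_zero)
  classical
  obtain ⟨m, hm, hmin⟩ : ∃ m, a m ≠ 0 ∧ ∀ j < m, a j = 0 :=
    ⟨Nat.find hex, Nat.find_spec hex, fun j hj => by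
      by_contra h
      exact Nat.find_min hex hj h⟩
  -- the shifted sequence
  obtain ⟨b, hb⟩ : ∃ b : ℕ → ℂ, ∀ k, b k = a (k + m) := ⟨fun k => a (k + m), fun _ => rfl⟩
  have hbsum : Summable (fun k : ℕ => ((k : ℝ) + 1) * ‖b k‖ ^ 2) := by
    have h1 : Summable (fun k : ℕ => (((k + m : ℕ) : ℝ) + 1) * ‖a (k + m)‖ ^ 2) :=
      (summable_nat_add_iff (f := fun k : ℕ => ((k : ℝ) + 1) * ‖a k‖ ^ 2) m).mpr hsum
    refine Summable.of_nonneg_of_le (fun k => by positivity) (fun k => ?_) h1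
    rw [hb k]
    push_cast
    have : (0 : ℝ) ≤ m := Nat.cast_nonneg m
    nlinarith [sq_nonneg ‖a (k + m)‖]
  obtain ⟨D, hD⟩ := hbsum
  have hb0 : b 0 ≠ 0 := by rw [hb 0, zero_add]; exact hm
  have hDpos : 0 < D := by
    have h3 : (((0 : ℕ) : ℝ) + 1) * ‖b 0‖ ^ 2 ≤ D :=
      le_hasSum hD 0 fun j _ => by positivity
    have h4 : 0 < ‖b 0‖ := norm_pos_iff.mpr hb0
    have h5 : 0 < (((0 : ℕ) : ℝ) + 1) * ‖b 0‖ ^ 2 := by positivity
    linarith
  have hbz : ∀ n, z n ≠ 0 → HasSum (fun k : ℕ => b k * z n ^ k) 0 := by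
    intro n hn
    have h1 : HasSum (fun k : ℕ => a k * z n ^ k) 0 := by
      have := ha (z n) (by simpa using hz n)
      rwa [hzero n] at this
    have h2 := (hasSum_nat_add_iff' m).mpr h1
    have h3 : ∑ i ∈ Finset.range m, a i * z n ^ i = 0 :=
      Finset.sum_eq_zero fun i hi => by rw [hmin i (Finset.mem_range.mp hi), zero_mul]
    rw [h3, sub_zero] at h2
    have h4 := h2.mul_left ((z n ^ m)⁻¹)
    rw [mul_zero] at h4
    have h5 : (fun k : ℕ => b k * z n ^ k) =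
        fun k : ℕ => (z n ^ m)⁻¹ * (a (k + m) * z n ^ (k + m)) := by
      funext k
      have hp : z n ^ m ≠ 0 := pow_ne_zero m hn
      rw [hb k, pow_add]
      field_simp
    rw [h5]
    exact h4
  refine ⟨‖b 0‖ ^ 2 / D, by have := norm_pos_iff.mpr hb0; positivity, fun s c hs => ?_⟩
  obtain ⟨d, hd⟩ : ∃ d : ℕ → ℂ, ∀ k, d k = (if k = 0 then (1 : ℂ) else 0) -
      ∑ n ∈ s, c n * (starRingEnd ℂ) (z n) ^ k / ((k : ℂ) + 1) := ⟨_, fun _ => rfl⟩
  have hQ : HasSum (fun k : ℕ => ((k : ℝ) + 1) * ‖d k‖ ^ 2) (quad z s c) := by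
    have := hA z hz s c hs
    simpa only [← hd] using this
  refine cs_series b d D (quad z s c) (b 0) hDpos hD hQ ?_
  have h1 : (fun k : ℕ => ((k : ℂ) + 1) * (b k * (starRingEnd ℂ) (d k))) =
      fun k : ℕ => (if k = 0 then b 0 else 0) -
        ∑ n ∈ s, (starRingEnd ℂ) (c n) * (b k * z n ^ k) := by
    funext k
    have hk : ((k : ℂ) + 1) ≠ 0 := by exact_mod_cast Nat.succ_ne_zero k
    have hconj : (starRingEnd ℂ) (d k) = (if k = 0 then (1 : ℂ) else 0) -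
        ∑ n ∈ s, (starRingEnd ℂ) (c n) * z n ^ k / ((k : ℂ) + 1) := by
      rw [hd k, map_sub, map_sum]
      congr 1
      · split_ifs <;> simp
      · refine Finset.sum_congr rfl fun n _ => ?_
        simp
    rw [hconj, mul_sub, mul_sub, Finset.mul_sum, Finset.mul_sum]
    congr 1
    · by_cases h : k = 0
      · subst h; simp
      · simp [h]
    · refine Finset.sum_congr rfl fun n _ => ?_
      field_simp
  rw [h1]
  have h2 : HasSum (fun k : ℕ => ∑ n ∈ s, (starRingEnd ℂ) (c n) * (b k * z n ^ k))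
      (∑ n ∈ s, (starRingEnd ℂ) (c n) * 0) :=
    hasSum_sum fun n hn => (hbz n (hs n hn)).mul_left _
  have h3 := (hasSum_ite_eq (0 : ℕ) (b 0)).sub h2
  simpa using h3

end Pool.Agent.Helper49.DZ
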